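import Pool.Agent.H87.D3.Targets2

/-! Board d3h_modules (MP_2697e3_an), row LGR: lines through two thin windows. -/

set_option autoImplicit false

namespace Pool.Agent.H16.D3

open MeasureTheory Metric Set Filter Topology Pool.Agent.H87.SN Pool.Agent.H87.SH Pool.Agent.H87.AX
open Pool.Agent.H87.D3
open scoped ContDiff RealInnerProductSpace ENNReal

theorem inner3 (x y : V) : ⟪x, y⟫ = x 0 * y 0 + x 1 * y 1 + x 2 * y 2 := by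
  rw [PiLp.inner_apply]
  refine (Fin.sum_univ_three (fun i : Fin 3 => ⟪x.ofLp i, y.ofLp i⟫)).trans ?_
  simp only [RCLike.inner_apply, conj_trivial]
  ring

theorem norm3 (x : V) : ‖x‖ ^ 2 = x 0 ^ 2 + x 1 ^ 2 + x 2 ^ 2 := by
  rw [← real_inner_self_eq_norm_sq, inner3]
  ring

/-- the squared distance in coordinates -/
theorem dl_eq0 (a T x : V) : dl a T x = (x 0 - a 0) ^ 2 + (x 1 - a 1) ^ 2 + (x 2 - a 2) ^ 2 -
    ((x 0 - a 0) * T 0 + (x 1 - a 1) * T 1 + (x 2 - a 2) * T 2) ^ 2 := by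
  unfold dl
  rw [norm3, inner3]
  have h0 : (x - a) 0 = x 0 - a 0 := rfl
  have h1 : (x - a) 1 = x 1 - a 1 := rfl
  have h2 : (x - a) 2 = x 2 - a 2 := rfl
  rw [h0, h1, h2]

/-- triangle inequality in the plane -/
theorem tri (x0 x1 w0 w1 A B : ℝ) (hA : 0 ≤ A) (hB : 0 ≤ B) (hx : x0 ^ 2 + x1 ^ 2 ≤ A ^ 2)
    (hw : w0 ^ 2 + w1 ^ 2 ≤ B ^ 2) : (x0 - w0) ^ 2 + (x1 - w1) ^ 2 ≤ (A + B) ^ 2 := by
  have h1 : (x0 * w0 + x1 * w1) ^ 2 ≤ (A * B) ^ 2 := by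
    calc (x0 * w0 + x1 * w1) ^ 2 ≤ (x0 ^ 2 + x1 ^ 2) * (w0 ^ 2 + w1 ^ 2) := by
          nlinarith [sq_nonneg (x0 * w1 - x1 * w0)]
      _ ≤ A ^ 2 * B ^ 2 := mul_le_mul hx hw (by positivity) (by positivity)
      _ = (A * B) ^ 2 := by ring
  have h2 : |x0 * w0 + x1 * w1| ≤ A * B := abs_le_of_sq_le_sq h1 (by positivity)
  have h3 := (abs_le.1 h2).1
  nlinarith

/-- the foot point of a point near the line -/
theorem foot (a0 a1 a2 T0 T1 T2 x0 x1 x2 t : ℝ) (ht : 0 < t)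
    (hT3 : T0 ^ 2 + T1 ^ 2 + T2 ^ 2 = 1) (hh : x0 ^ 2 + x1 ^ 2 ≤ (t / 100) ^ 2)
    (hd : (x0 - a0) ^ 2 + (x1 - a1) ^ 2 + (x2 - a2) ^ 2 -
      ((x0 - a0) * T0 + (x1 - a1) * T1 + (x2 - a2) * T2) ^ 2 ≤ t ^ 2 / 900) :
    ∃ l : ℝ, (a0 + l * T0) ^ 2 + (a1 + l * T1) ^ 2 ≤ (13 * t / 300) ^ 2 ∧
      |a2 + l * T2 - x2| ≤ t / 30 := by
  obtain ⟨l, hl⟩ : ∃ l, l = (x0 - a0) * T0 + (x1 - a1) * T1 + (x2 - a2) * T2 := ⟨_, rfl⟩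
  have h1 : (x0 - a0 - l * T0) ^ 2 + (x1 - a1 - l * T1) ^ 2 + (x2 - a2 - l * T2) ^ 2 ≤
      (t / 30) ^ 2 := by
    have h2 : (x0 - a0 - l * T0) ^ 2 + (x1 - a1 - l * T1) ^ 2 + (x2 - a2 - l * T2) ^ 2 =
        (x0 - a0) ^ 2 + (x1 - a1) ^ 2 + (x2 - a2) ^ 2 -
      ((x0 - a0) * T0 + (x1 - a1) * T1 + (x2 - a2) * T2) ^ 2 := by
      rw [← hl]
      linear_combination (2 * l) * hl + l ^ 2 * hT3
    rw [h2]
    refine hd.trans (le_of_eq ?_)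
    ring
  refine ⟨l, ?_, ?_⟩
  · have h3 := tri x0 x1 (x0 - a0 - l * T0) (x1 - a1 - l * T1) (t / 100) (t / 30) (by positivity)
      (by positivity) hh (by linarith [sq_nonneg (x2 - a2 - l * T2)])
    refine le_trans (le_of_eq ?_) (h3.trans (le_of_eq ?_)) <;> ring
  · refine abs_le_of_sq_le_sq ?_ (by positivity)
    have h4 : (a2 + l * T2 - x2) ^ 2 = (x2 - a2 - l * T2) ^ 2 := by ring
    rw [h4]
    linarith [sq_nonneg (x0 - a0 - l * T0), sq_nonneg (x1 - a1 - l * T1)]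

/-- the slopes and the position -/
theorem slopes (a0 a1 a2 T0 T1 T2 l1 l2 z1 z2 t z' : ℝ) (ht : 0 < t)
    (hb1 : (a0 + l1 * T0) ^ 2 + (a1 + l1 * T1) ^ 2 ≤ (13 * t / 300) ^ 2)
    (hb2 : (a0 + l2 * T0) ^ 2 + (a1 + l2 * T1) ^ 2 ≤ (13 * t / 300) ^ 2)
    (hv1 : |a2 + l1 * T2 - z1| ≤ t / 30) (hv2 : |a2 + l2 * T2 - z2| ≤ t / 30)
    (hz1 : |z1 - (z' + 2 * t)| < t / 4) (hz2 : |z2 - (z' - 2 * t)| < t / 4) :
    T2 ≠ 0 ∧ 900 * (T0 ^ 2 + T1 ^ 2) ≤ T2 ^ 2 ∧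
      (a0 - T0 / T2 * a2 + T0 / T2 * z') ^ 2 + (a1 - T1 / T2 * a2 + T1 / T2 * z') ^ 2 ≤
        t ^ 2 / 400 := by
  obtain ⟨q10, hq10⟩ : ∃ q, q = a0 + l1 * T0 := ⟨_, rfl⟩
  obtain ⟨q11, hq11⟩ : ∃ q, q = a1 + l1 * T1 := ⟨_, rfl⟩
  obtain ⟨q12, hq12⟩ : ∃ q, q = a2 + l1 * T2 := ⟨_, rfl⟩
  obtain ⟨q20, hq20⟩ : ∃ q, q = a0 + l2 * T0 := ⟨_, rfl⟩
  obtain ⟨q21, hq21⟩ : ∃ q, q = a1 + l2 * T1 := ⟨_, rfl⟩
  obtain ⟨q22, hq22⟩ : ∃ q, q = a2 + l2 * T2 := ⟨_, rfl⟩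
  rw [← hq10, ← hq11] at hb1
  rw [← hq20, ← hq21] at hb2
  rw [← hq12] at hv1
  rw [← hq22] at hv2
  have hb3 := tri q10 q11 q20 q21 (13 * t / 300) (13 * t / 300) (by positivity) (by positivity)
    hb1 hb2
  have ha1 := abs_lt.1 hz1
  have ha2 := abs_lt.1 hz2
  have ha3 := abs_le.1 hv1
  have ha4 := abs_le.1 hv2
  have hup : z' ≤ q12 := by linarith
  have hlo : q22 ≤ z' := by linarith
  have hgap : 17 / 5 * t ≤ q12 - q22 := by linarith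
  have hgap2 : q12 - q22 = (l1 - l2) * T2 := by rw [hq12, hq22]; ring
  have hgpos : 0 < q12 - q22 := by linarith
  have hT2 : T2 ≠ 0 := by
    intro h
    rw [hgap2, h, mul_zero] at hgpos
    exact lt_irrefl _ hgpos
  refine ⟨hT2, ?_, ?_⟩
  · have h1 : q10 - q20 = (l1 - l2) * T0 := by rw [hq10, hq20]; ring
    have h2 : q11 - q21 = (l1 - l2) * T1 := by rw [hq11, hq21]; ring
    rw [h1, h2] at hb3
    have h3 : (l1 - l2) ^ 2 * (T0 ^ 2 + T1 ^ 2) ≤ (26 * t / 300) ^ 2 := by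
      refine le_trans (le_of_eq ?_) (hb3.trans (le_of_eq ?_)) <;> ring
    have h4 : (17 / 5 * t) ^ 2 ≤ (l1 - l2) ^ 2 * T2 ^ 2 := by
      rw [← mul_pow, ← hgap2]
      exact pow_le_pow_left₀ (by positivity) hgap 2
    have h5 : 0 < (l1 - l2) ^ 2 := by
      have : l1 - l2 ≠ 0 := by
        intro h
        rw [hgap2, h, zero_mul] at hgpos
        exact lt_irrefl _ hgpos
      positivity
    have h6 : (l1 - l2) ^ 2 * (900 * (T0 ^ 2 + T1 ^ 2)) ≤ (l1 - l2) ^ 2 * T2 ^ 2 := by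
      have h7 : 900 * (26 * t / 300) ^ 2 ≤ (17 / 5 * t) ^ 2 := by
        have h13 : 900 * (26 * t / 300) ^ 2 = 169 / 25 * t ^ 2 := by ring
        have h14 : (17 / 5 * t) ^ 2 = 289 / 25 * t ^ 2 := by ring
        have h15 := sq_nonneg t
        rw [h13, h14]
        linarith only [h15]
      calc (l1 - l2) ^ 2 * (900 * (T0 ^ 2 + T1 ^ 2)) =
          900 * ((l1 - l2) ^ 2 * (T0 ^ 2 + T1 ^ 2)) := by ring
        _ ≤ 900 * (26 * t / 300) ^ 2 := mul_le_mul_of_nonneg_left h3 (by norm_num)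
        _ ≤ (17 / 5 * t) ^ 2 := h7
        _ ≤ _ := h4
    exact le_of_mul_le_mul_left h6 h5
  · obtain ⟨θ, hθ⟩ : ∃ θ, θ = (z' - q22) / (q12 - q22) := ⟨_, rfl⟩
    have hθ0 : 0 ≤ θ := by
      rw [hθ]
      exact div_nonneg (by linarith) hgpos.le
    have hθ1 : θ ≤ 1 := by
      rw [hθ, div_le_one hgpos]
      linarith
    have hz : z' = θ * q12 + (1 - θ) * q22 := by
      have : θ * (q12 - q22) = z' - q22 := by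
        rw [hθ]
        exact div_mul_cancel₀ _ hgpos.ne'
      linarith
    have hp0 : a0 - T0 / T2 * a2 + T0 / T2 * z' = θ * q10 + (1 - θ) * q20 := by
      rw [hz, hq12, hq22, hq10, hq20]
      field_simp
      ring
    have hp1 : a1 - T1 / T2 * a2 + T1 / T2 * z' = θ * q11 + (1 - θ) * q21 := by
      rw [hz, hq12, hq22, hq11, hq21]
      field_simp
      ring
    rw [hp0, hp1]
    have h7 : (θ * q10 + (1 - θ) * q20) ^ 2 + (θ * q11 + (1 - θ) * q21) ^ 2 ≤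
        θ * (q10 ^ 2 + q11 ^ 2) + (1 - θ) * (q20 ^ 2 + q21 ^ 2) := by
      have h8 : θ * (q10 ^ 2 + q11 ^ 2) + (1 - θ) * (q20 ^ 2 + q21 ^ 2) -
          ((θ * q10 + (1 - θ) * q20) ^ 2 + (θ * q11 + (1 - θ) * q21) ^ 2) =
          θ * (1 - θ) * ((q10 - q20) ^ 2 + (q11 - q21) ^ 2) := by ring
      have h9 : 0 ≤ θ * (1 - θ) * ((q10 - q20) ^ 2 + (q11 - q21) ^ 2) :=
        mul_nonneg (mul_nonneg hθ0 (by linarith)) (by positivity)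
      linarith
    have h10 : θ * (q10 ^ 2 + q11 ^ 2) ≤ θ * (13 * t / 300) ^ 2 :=
      mul_le_mul_of_nonneg_left hb1 hθ0
    have h11 : (1 - θ) * (q20 ^ 2 + q21 ^ 2) ≤ (1 - θ) * (13 * t / 300) ^ 2 :=
      mul_le_mul_of_nonneg_left hb2 (by linarith)
    have h12 : (13 * t / 300) ^ 2 ≤ t ^ 2 / 400 := by
      have h13 : (13 * t / 300) ^ 2 = 169 / 90000 * t ^ 2 := by ring
      have h14 := sq_nonneg t
      rw [h13]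
      linarith only [h14]
    linarith only [h7, h10, h11, h12]

/-- comparison of the two distances -/
theorem compare (a0 a1 a2 T0 T1 T2 x0 x1 x2 : ℝ) (hT3 : T0 ^ 2 + T1 ^ 2 + T2 ^ 2 = 1)
    (hT2 : T2 ≠ 0) (hsl : 900 * (T0 ^ 2 + T1 ^ 2) ≤ T2 ^ 2) :
    (x0 - (a0 - T0 / T2 * a2 + T0 / T2 * x2)) ^ 2 +
      (x1 - (a1 - T1 / T2 * a2 + T1 / T2 * x2)) ^ 2 ≤
    2 * ((x0 - a0) ^ 2 + (x1 - a1) ^ 2 + (x2 - a2) ^ 2 -
      ((x0 - a0) * T0 + (x1 - a1) * T1 + (x2 - a2) * T2) ^ 2) := by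
  obtain ⟨u0, hu0⟩ : ∃ u, u = x0 - (a0 - T0 / T2 * a2 + T0 / T2 * x2) := ⟨_, rfl⟩
  obtain ⟨u1, hu1⟩ : ∃ u, u = x1 - (a1 - T1 / T2 * a2 + T1 / T2 * x2) := ⟨_, rfl⟩
  rw [← hu0, ← hu1]
  obtain ⟨τ, hτ⟩ : ∃ τ, τ = (x2 - a2) / T2 := ⟨_, rfl⟩
  have hx0 : x0 - a0 = u0 + τ * T0 := by
    rw [hu0, hτ]
    field_simp
    ring
  have hx1' : x1 - a1 = u1 + τ * T1 := by
    rw [hu1, hτ]
    field_simp
    ring
  have hx2' : x2 - a2 = τ * T2 := by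
    rw [hτ]
    field_simp
  have hdl : (x0 - a0) ^ 2 + (x1 - a1) ^ 2 + (x2 - a2) ^ 2 -
      ((x0 - a0) * T0 + (x1 - a1) * T1 + (x2 - a2) * T2) ^ 2 =
      u0 ^ 2 + u1 ^ 2 - (u0 * T0 + u1 * T1) ^ 2 := by
    rw [hx0, hx1', hx2']
    linear_combination (-2 * τ * (u0 * T0 + u1 * T1) - τ ^ 2 * (T0 ^ 2 + T1 ^ 2 +
      T2 ^ 2)) * hT3
  rw [hdl]
  have hcs : (u0 * T0 + u1 * T1) ^ 2 ≤ (u0 ^ 2 + u1 ^ 2) * (T0 ^ 2 + T1 ^ 2) := by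
    nlinarith [sq_nonneg (u0 * T1 - u1 * T0)]
  have hT4 : T0 ^ 2 + T1 ^ 2 ≤ 1 / 2 := by linarith [sq_nonneg T2]
  have h12 : (u0 ^ 2 + u1 ^ 2) * (T0 ^ 2 + T1 ^ 2) ≤ (u0 ^ 2 + u1 ^ 2) * (1 / 2) :=
    mul_le_mul_of_nonneg_left hT4 (by positivity)
  linarith

theorem pf_LGR : T_LGR := by
  intro a T x₁ x₂ t z' hT ht hx1 hx2 hr1 hr2 hd1 hd2
  have hT3 : T 0 ^ 2 + T 1 ^ 2 + T 2 ^ 2 = 1 := by
    rw [← norm3, hT, one_pow]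
  have hrho : ∀ x : V, rho x ≤ t / 100 → x 0 ^ 2 + x 1 ^ 2 ≤ (t / 100) ^ 2 := by
    intro x hx
    have h1 : 0 ≤ x 0 ^ 2 + x 1 ^ 2 := by positivity
    have h2 : rho x ^ 2 = x 0 ^ 2 + x 1 ^ 2 := by
      unfold rho
      exact Real.sq_sqrt h1
    rw [← h2]
    have h3 : 0 ≤ rho x := Real.sqrt_nonneg _
    exact pow_le_pow_left₀ h3 hx 2
  rw [dl_eq0] at hd1 hd2
  obtain ⟨l1, hb1, hv1⟩ := foot (a 0) (a 1) (a 2) (T 0) (T 1) (T 2) (x₁ 0) (x₁ 1) (x₁ 2) t ht hT3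
    (hrho x₁ hr1) hd1
  obtain ⟨l2, hb2, hv2⟩ := foot (a 0) (a 1) (a 2) (T 0) (T 1) (T 2) (x₂ 0) (x₂ 1) (x₂ 2) t ht hT3
    (hrho x₂ hr2) hd2
  obtain ⟨hT2, hsl, hpos⟩ := slopes (a 0) (a 1) (a 2) (T 0) (T 1) (T 2) l1 l2 (x₁ 2) (x₂ 2) t z'
    ht hb1 hb2 hv1 hv2 hx1 hx2
  refine ⟨a 0 - T 0 / T 2 * a 2, a 1 - T 1 / T 2 * a 2, T 0 / T 2, T 1 / T 2, ?_, hpos, ?_⟩
  · have hT2sq : 0 < T 2 ^ 2 := by positivity
    rw [div_pow, div_pow, ← add_div, div_le_div_iff₀ hT2sq (by norm_num)]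
    linarith
  · intro x
    rw [dl_eq0]
    exact compare (a 0) (a 1) (a 2) (T 0) (T 1) (T 2) (x 0) (x 1) (x 2) hT3 hT2 hsl

end Pool.Agent.H16.D3
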