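import Pool.Agent.H87.D3.Targets2

/-! Board d3h_modules (MP_2697e3_an), row MLB: lower bound of the mass. -/

set_option autoImplicit false

namespace Pool.Agent.H16.D3

open MeasureTheory Metric Set Filter Topology Pool.Agent.H87.SN Pool.Agent.H87.SH Pool.Agent.H87.AX
open Pool.Agent.H87.D3
open scoped ContDiff RealInnerProductSpace ENNReal

theorem nzs_nonneg' {m : ℕ} (L : V →L[ℝ] E m) : 0 ≤ nzs (d := 1) L := by
  unfold nzs
  positivity

theorem nzs_le_nsq {m : ℕ} (L : V →L[ℝ] E m) : nzs (d := 1) L ≤ nsq L := by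
  have h1 : nzs (d := 1) L = ‖L (bv (Fin.succ (Fin.succ (0 : Fin 1))))‖ ^ 2 := by
    unfold nzs
    exact Fin.sum_univ_one _
  rw [h1]
  unfold nsq
  exact Finset.single_le_sum (f := fun i : Fin (1 + 2) => ‖L (bv i)‖ ^ 2)
    (fun i _ => by positivity) (Finset.mem_univ (Fin.succ (Fin.succ (0 : Fin 1))))

theorem nsq_nonneg' {m : ℕ} (L : V →L[ℝ] E m) : 0 ≤ nsq L := by
  unfold nsq
  positivity

theorem bw_nonneg (z₀ r z : ℝ) (hr : 0 < r) : 0 ≤ bw z₀ r z := by
  unfold bw
  exact mul_nonneg (inv_nonneg.2 hr.le) (le_max_left _ _)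

theorem bw_le (z₀ r z : ℝ) (hr : 0 < r) : bw z₀ r z ≤ r⁻¹ := by
  unfold bw
  have h1 : max 0 (1 - |(z - z₀) / r|) ≤ 1 := by
    refine max_le zero_le_one ?_
    linarith [abs_nonneg ((z - z₀) / r)]
  calc r⁻¹ * max 0 (1 - |(z - z₀) / r|) ≤ r⁻¹ * 1 :=
        mul_le_mul_of_nonneg_left h1 (inv_nonneg.2 hr.le)
    _ = r⁻¹ := mul_one _

theorem bw_zero (z₀ r z : ℝ) (hr : 0 < r) (h : r ≤ |z - z₀|) : bw z₀ r z = 0 := by
  unfold bw
  have h1 : 1 ≤ |(z - z₀) / r| := by
    rw [abs_div, abs_of_pos hr, le_div_iff₀ hr]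
    linarith
  rw [max_eq_left (by linarith), mul_zero]

theorem bw_cont (z₀ r : ℝ) : Continuous (bw z₀ r) := by
  unfold bw
  fun_prop

theorem abs2_le (x : V) : |x 2| ≤ ‖x‖ := by
  have := PiLp.norm_apply_le x 2
  rwa [Real.norm_eq_abs] at this

theorem norm_sq3 (x : V) : ‖x‖ ^ 2 = x 0 ^ 2 + x 1 ^ 2 + x 2 ^ 2 := by
  rw [EuclideanSpace.real_norm_sq_eq]
  exact Fin.sum_univ_three (fun i : Fin 3 => x.ofLp i ^ 2)

theorem pf_MLB (hMUF : T_MUF) (hCHF : T_CHF) : T_MLB := by
  intro m G hG σ h e x₀ hh hhσ hσ he hx₀ hth hoc hnz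
  have hσ0 : 0 < σ := lt_of_lt_of_le hh hhσ
  obtain ⟨-, -, -, hM4, hM5, -⟩ := hMUF m G hG
  obtain ⟨C, -, hC⟩ := hCHF
  obtain ⟨c1, c2, c3, c4, -, -, -, -⟩ := hC h hh
  obtain ⟨f, hf⟩ : ∃ f : V → ℝ, f = fun x => chh h x * bw 0 (4 * σ) (x 2) := ⟨_, rfl⟩
  have hfx : ∀ x, f x = chh h x * bw 0 (4 * σ) (x 2) := fun x => by rw [hf]
  have hfc : Continuous f := by
    rw [hf]
    exact c1.continuous.mul ((bw_cont _ _).comp (by fun_prop))
  have hf0 : ∀ x, 0 ≤ f x := fun x => by
    rw [hfx]
    exact mul_nonneg (c2 x).1 (bw_nonneg _ _ _ (by positivity))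
  have hf1 : ∀ x, f x ≤ (4 * σ)⁻¹ := fun x => by
    rw [hfx]
    calc chh h x * bw 0 (4 * σ) (x 2) ≤ 1 * (4 * σ)⁻¹ :=
          mul_le_mul (c2 x).2 (bw_le _ _ _ (by positivity)) (bw_nonneg _ _ _ (by positivity))
            zero_le_one
      _ = (4 * σ)⁻¹ := one_mul _
  have hI2 : IntegrableOn (fun x => f x * nsq (G x)) (ball (0 : V) 2) :=
    (hM5 f (ball 0 2) (4 * σ)⁻¹ hfc.measurable measurableSet_ball Subset.rfl
      (fun x _ => ⟨hf0 x, hf1 x⟩)).1
  have hInsq : IntegrableOn (fun x => nsq (G x)) (ball (0 : V) 2) :=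
    (hM4 _ measurableSet_ball Subset.rfl).1
  have hmz : AEStronglyMeasurable (fun x => nzs (d := 1) (G x))
      (volume.restrict (ball (0 : V) 2)) := by
    unfold nzs
    refine Finset.aestronglyMeasurable_fun_sum _ fun i _ => ?_
    have h1 : AEStronglyMeasurable (fun x => G x (bv (Fin.succ (Fin.succ i))))
        (volume.restrict (ball (0 : V) 2)) :=
      (ContinuousLinearMap.apply ℝ (E m)
        (bv (Fin.succ (Fin.succ i)) : V)).continuous.comp_aestronglyMeasurable hG.1
    exact h1.norm.pow 2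
  have hInz : IntegrableOn (fun x => nzs (d := 1) (G x)) (ball (0 : V) 2) := by
    refine Integrable.mono' hInsq hmz (Eventually.of_forall fun x => ?_)
    rw [Real.norm_eq_abs, abs_of_nonneg (nzs_nonneg' _)]
    exact nzs_le_nsq _
  have hI3 : IntegrableOn (fun x => f x * nzs (d := 1) (G x)) (ball (0 : V) 2) := by
    refine Integrable.mono' hI2 (hfc.aestronglyMeasurable.mul hmz) (Eventually.of_forall fun x => ?_)
    rw [Real.norm_eq_abs, abs_of_nonneg (mul_nonneg (hf0 x) (nzs_nonneg' _))]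
    exact mul_le_mul_of_nonneg_left (nzs_le_nsq _) (hf0 x)
  have hms : ms G h 0 (4 * σ) = (∫ x in ball (0 : V) 2, f x * nsq (G x)) -
      2 * ∫ x in ball (0 : V) 2, f x * nzs (d := 1) (G x) := by
    have h1 : ms G h 0 (4 * σ) = ∫ x in ball (0 : V) 2, (f x * nsq (G x) -
        2 * (f x * nzs (d := 1) (G x))) := by
      unfold ms
      refine integral_congr_ae (Eventually.of_forall fun x => ?_)
      show chh h x * bw 0 (4 * σ) (x 2) * tz (G x) = _
      rw [← hfx]
      unfold tz
      ring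
    rw [h1, integral_sub hI2 (hI3.const_mul 2), integral_const_mul]
  -- the first integral
  have hball : ball x₀ σ ⊆ ball (0 : V) (5 / 8) := by
    intro x hx
    rw [mem_ball, dist_zero_right]
    rw [mem_ball, dist_eq_norm] at hx
    have h1 : ‖x‖ ≤ ‖x - x₀‖ + ‖x₀‖ := by
      have := norm_add_le (x - x₀) x₀
      rwa [sub_add_cancel] at this
    linarith
  have hb52 : ball (0 : V) (5 / 8) ⊆ ball 0 2 := ball_subset_ball (by norm_num)
  have hmrho : Measurable (fun x : V => rho x) := by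
    have : Continuous (fun x : V => rho x) := by
      unfold rho
      fun_prop
    exact this.measurable
  have hmass : e * σ / 4 ≤ ∫ x in ball x₀ σ, nsq (G x) := by
    rw [← (hM4 _ measurableSet_ball (hball.trans hb52)).2]
    have h1 : e / 4 ≤ (mu G).real (ball x₀ σ) / σ := hth
    rw [le_div_iff₀ hσ0] at h1
    linarith
  obtain ⟨S, hS⟩ : ∃ S : Set V, S = ball x₀ σ ∩ {x | rho x < h} := ⟨_, rfl⟩
  obtain ⟨S', hS'⟩ : ∃ S' : Set V, S' = ball x₀ σ ∩ {x | h ≤ rho x} := ⟨_, rfl⟩
  have hSm : MeasurableSet S := by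
    rw [hS]
    exact measurableSet_ball.inter (measurableSet_lt hmrho measurable_const)
  have hSm' : MeasurableSet S' := by
    rw [hS']
    exact measurableSet_ball.inter (measurableSet_le measurable_const hmrho)
  have hSu : ball x₀ σ = S ∪ S' := by
    rw [hS, hS', ← inter_union_distrib_left]
    symm
    rw [inter_eq_left]
    intro x _
    show rho x < h ∨ h ≤ rho x
    exact lt_or_ge _ _
  have hSd : Disjoint S S' := by
    rw [Set.disjoint_left]
    intro x hx hx'
    rw [hS] at hx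
    rw [hS'] at hx'
    have h1 : rho x < h := hx.2
    have h2 : h ≤ rho x := hx'.2
    exact absurd h1 (not_lt.2 h2)
  have hSs : S ⊆ ball (0 : V) 2 := by
    rw [hS]
    exact inter_subset_left.trans (hball.trans hb52)
  have hSs' : S' ⊆ ball (0 : V) 2 := by
    rw [hS']
    exact inter_subset_left.trans (hball.trans hb52)
  have hoc' : ∫ x in S', nsq (G x) ≤ e * σ / 32 := by
    refine le_trans ?_ hoc
    unfold oc
    refine setIntegral_mono_set (hInsq.mono_set ?_) (Eventually.of_forall fun x => nsq_nonneg' _)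
      (LE.le.eventuallyLE ?_)
    · intro x hx
      exact hb52 hx.1
    · rw [hS']
      intro x hx
      exact ⟨hball hx.1, hx.2⟩
  have hcore : 7 * e * σ / 32 ≤ ∫ x in S, nsq (G x) := by
    have h1 : ∫ x in ball x₀ σ, nsq (G x) =
        (∫ x in S, nsq (G x)) + ∫ x in S', nsq (G x) := by
      rw [hSu]
      exact setIntegral_union hSd hSm' (hInsq.mono_set hSs) (hInsq.mono_set hSs')
    rw [h1] at hmass
    linarith
  have hfirst : 7 * e / 256 ≤ ∫ x in ball (0 : V) 2, f x * nsq (G x) := by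
    have h1 : ∫ x in S, f x * nsq (G x) ≤ ∫ x in ball (0 : V) 2, f x * nsq (G x) :=
      setIntegral_mono_set hI2 (Eventually.of_forall fun x => mul_nonneg (hf0 x) (nsq_nonneg' _))
        (LE.le.eventuallyLE hSs)
    have h2 : ∫ x in S, (8 * σ)⁻¹ * nsq (G x) ≤ ∫ x in S, f x * nsq (G x) := by
      refine setIntegral_mono_on ((hInsq.mono_set hSs).const_mul _) (hI2.mono_set hSs) hSm ?_
      intro x hx
      refine mul_le_mul_of_nonneg_right ?_ (nsq_nonneg' _)
      rw [hS] at hx
      have h3 : rho x < h := hx.2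
      rw [hfx, c3 x h3.le, one_mul]
      have h4 : |x 2| ≤ 2 * σ := by
        have h5 := hx.1
        rw [mem_ball, dist_eq_norm] at h5
        have h6 : ‖x‖ ≤ ‖x - x₀‖ + ‖x₀‖ := by
          have := norm_add_le (x - x₀) x₀
          rwa [sub_add_cancel] at this
        linarith [abs2_le x]
      unfold bw
      rw [sub_zero]
      have h7 : |x 2 / (4 * σ)| ≤ 1 / 2 := by
        rw [abs_div, abs_of_pos (by positivity : (0 : ℝ) < 4 * σ), div_le_iff₀ (by positivity)]
        linarith
      have h8 : (1 / 2 : ℝ) ≤ max 0 (1 - |x 2 / (4 * σ)|) := le_trans (by linarith) (le_max_right _ _)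
      calc (8 * σ)⁻¹ = (4 * σ)⁻¹ * (1 / 2) := by
            field_simp
            norm_num
        _ ≤ (4 * σ)⁻¹ * max 0 (1 - |x 2 / (4 * σ)|) :=
            mul_le_mul_of_nonneg_left h8 (by positivity)
    rw [integral_const_mul] at h2
    have h3 : 7 * e / 256 = (8 * σ)⁻¹ * (7 * e * σ / 32) := by
      field_simp
      ring
    rw [h3]
    refine le_trans (mul_le_mul_of_nonneg_left hcore (by positivity)) (h2.trans h1)
  -- the second integral
  have hsecond : ∫ x in ball (0 : V) 2, f x * nzs (d := 1) (G x) ≤ e / 512 := by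
    have h1 : ∫ x in ball (0 : V) 2, f x * nzs (d := 1) (G x) =
        ∫ x in ball (0 : V) (5 / 8), f x * nzs (d := 1) (G x) := by
      refine setIntegral_eq_of_subset_of_forall_sdiff_eq_zero measurableSet_ball hb52 ?_
      intro x hx
      have h2 : f x = 0 := by
        rw [hfx]
        by_cases h3 : 2 * h ≤ rho x
        · rw [c4 x h3, zero_mul]
        · by_cases h4 : 4 * σ ≤ |x 2|
          · rw [bw_zero 0 (4 * σ) (x 2) (by positivity) (by rwa [sub_zero]), mul_zero]
          · exfalso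
            refine hx.2 ?_
            rw [mem_ball, dist_zero_right]
            have h5 : rho x ^ 2 = x 0 ^ 2 + x 1 ^ 2 := by
              unfold rho
              exact Real.sq_sqrt (by positivity)
            have h6 : 0 ≤ rho x := Real.sqrt_nonneg _
            have h7 : rho x ≤ 1 / 32 := by linarith
            have h8 : |x 2| ≤ 1 / 16 := by linarith
            have h9 : ‖x‖ ^ 2 < (5 / 8) ^ 2 := by
              rw [norm_sq3, ← h5, ← sq_abs (x 2)]
              have := abs_nonneg (x 2)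
              nlinarith
            exact lt_of_pow_lt_pow_left₀ 2 (by norm_num) h9
      show f x * nzs (d := 1) (G x) = 0
      rw [h2, zero_mul]
    rw [h1]
    have h2 : ∫ x in ball (0 : V) (5 / 8), f x * nzs (d := 1) (G x) ≤
        ∫ x in ball (0 : V) (5 / 8), (4 * σ)⁻¹ * nzs (d := 1) (G x) := by
      refine setIntegral_mono_on (hI3.mono_set hb52) ((hInz.mono_set hb52).const_mul _)
        measurableSet_ball ?_
      intro x _
      exact mul_le_mul_of_nonneg_right (hf1 x) (nzs_nonneg' _)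
    rw [integral_const_mul] at h2
    refine h2.trans ?_
    calc (4 * σ)⁻¹ * ∫ x in ball (0 : V) (5 / 8), nzs (d := 1) (G x)
        ≤ (4 * σ)⁻¹ * (e * σ / 128) := mul_le_mul_of_nonneg_left hnz (by positivity)
      _ = e / 512 := by
          field_simp
          ring
  rw [hms]
  linarith

end Pool.Agent.H16.D3
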